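import Pool.Agent.Helper535.HN.Gd

/-!
# Hereditarily weakly θ-refinable compacta whose point-complements are normal

In ZFC: a compact Hausdorff space all of whose subspaces are weakly θ-refinable is
Fréchet–Urysohn (in particular sequential) as soon as `X \ {z}` is normal for every point `z`; more
generally as soon as no sequence of points different from `z` converging to `z` is relatively
pseudocompact in `X \ {z}`.
-/

set_option autoImplicit false

open Set Topology Filter

namespace Pool.Agent.Results.MP_63de32_gt.HereditarilyNormal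

universe u

/-- `Y` is weakly θ-refinable: every open cover has an open refinement `⋃ₙ Vₙ` such that every
point lies, for some `n`, in at least one and at most finitely many members of `Vₙ`. -/
def WeaklyThetaRefinable (Y : Type u) [TopologicalSpace Y] : Prop :=
  ∀ 𝒰 : Set (Set Y), (∀ w ∈ 𝒰, IsOpen w) → ⋃₀ 𝒰 = Set.univ →
    ∃ V : ℕ → Set (Set Y), (∀ n, ∀ g ∈ V n, IsOpen g ∧ ∃ w ∈ 𝒰, g ⊆ w) ∧
      ∀ y : Y, ∃ n, (∃ g ∈ V n, y ∈ g) ∧ {g | g ∈ V n ∧ y ∈ g}.Finite

/-- for every point `z` and every sequence of points `≠ z` converging to `z` there is a continuous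
real function on `X \ {z}` which is not bounded above on the sequence. -/
def UnboundedOnSequences (X : Type u) [TopologicalSpace X] : Prop :=
  ∀ (z : X) (a : ℕ → X) (ha : ∀ n, a n ∈ ({z}ᶜ : Set X)), Tendsto a atTop (𝓝 z) →
    ∃ f : ({z}ᶜ : Set X) → ℝ, Continuous f ∧ ∀ M : ℝ, ∃ n, M < f ⟨a n, ha n⟩

/-- every nonempty closed subset `K` of `X` has a point which is a `G_δ` point of `K` (this holds
for example if `X` is scattered). -/
def ClosedSetsHaveGdeltaPoints (X : Type u) [TopologicalSpace X] : Prop :=
  ∀ K : Set X, IsClosed K → K.Nonempty →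
    ∃ p ∈ K, ∃ U : ℕ → Set X, (∀ n, IsOpen (U n)) ∧ K ∩ ⋂ n, U n = {p}

/-- A compact Hausdorff hereditarily weakly θ-refinable space is Fréchet–Urysohn (hence
sequential) if all its point-complements are normal, or if it satisfies `UnboundedOnSequences`;
and it is sequential if all its nonempty closed subsets have relative `G_δ` points. -/
theorem result (X : Type u) [TopologicalSpace X] [CompactSpace X] [T2Space X]
    (hw : ∀ S : Set X, WeaklyThetaRefinable S) :
    (((∀ z : X, NormalSpace ({z}ᶜ : Set X)) ∨ UnboundedOnSequences X) →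
      FrechetUrysohnSpace X) ∧
    (ClosedSetsHaveGdeltaPoints X → SequentialSpace X) := by
  have hC : Pool.Helper535.HN.CClosed X := Pool.Helper535.HN.wtrC fun S => hw S
  refine ⟨fun h => ?_, fun h => Pool.Helper535.HN.seqGd hC h⟩
  have hU : Pool.Helper535.HN.UnbSeq X := by
    rcases h with h | h
    · exact Pool.Helper535.HN.unb_of_normal h
    · exact h
  exact Pool.Helper535.HN.frechetU hC hU

end Pool.Agent.Results.MP_63de32_gt.HereditarilyNormal
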